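import Mathlib

/-!
# The number of points of quadric bundles over the projective line over finite fields
-/

set_option autoImplicit false
set_option linter.unusedSectionVars false
set_option linter.unusedVariables false

open scoped Classical

namespace Pool.Agent.L7h1.QB

open Finset

variable {F : Type} [Field F] [Fintype F]

/-- the number of representations of `c` by a diagonal quadratic form -/
noncomputable def cnt {n : ℕ} (a : Fin n → F) (c : F) : ℤ :=
  (Fintype.card {x : Fin n → F // ∑ i, a i * x i ^ 2 = c} : ℤ)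

lemma cnt_zero (a : Fin 0 → F) (c : F) : cnt a c = if c = 0 then 1 else 0 := by
  unfold cnt
  by_cases h : c = 0
  · subst h
    rw [if_pos rfl]
    have : Fintype.card {x : Fin 0 → F // ∑ i, a i * x i ^ 2 = 0} = 1 := by
      rw [Fintype.card_eq_one_iff]
      refine ⟨⟨fun i => i.elim0, by simp⟩, fun y => ?_⟩
      apply Subtype.ext
      funext i
      exact i.elim0
    rw [this]
    rfl
  · rw [if_neg h]
    have : Fintype.card {x : Fin 0 → F // ∑ i, a i * x i ^ 2 = c} = 0 := by
      rw [Fintype.card_eq_zero_iff]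
      refine ⟨fun y => h ?_⟩
      have := y.2
      simpa using this.symm
    rw [this]
    rfl

lemma cnt_succ {n : ℕ} (a : Fin (n + 1) → F) (c : F) :
    cnt a c = ∑ y : F, cnt (fun i => a i.succ) (c - a 0 * y ^ 2) := by
  unfold cnt
  rw [← Nat.cast_sum, ← Fintype.card_sigma]
  congr 1
  refine Fintype.card_congr ⟨fun x => ⟨x.1 0, fun i => x.1 i.succ, ?_⟩,
    fun p => ⟨Fin.cons p.1 p.2.1, ?_⟩, fun x => ?_, fun p => ?_⟩
  · have := x.2
    rw [Fin.sum_univ_succ] at this
    linear_combination this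
  · have := p.2.2
    rw [Fin.sum_univ_succ]
    simp only [Fin.cons_zero, Fin.cons_succ]
    linear_combination this
  · apply Subtype.ext
    funext i
    refine Fin.cases ?_ (fun j => ?_) i
    · rfl
    · rfl
  · rfl

/-- all the representations -/
lemma cnt_sum {n : ℕ} (a : Fin n → F) : ∑ c : F, cnt a c = (Fintype.card F : ℤ) ^ n := by
  unfold cnt
  rw [← Nat.cast_sum, ← Fintype.card_sigma]
  have h : Fintype.card (Σ c : F, {x : Fin n → F // ∑ i, a i * x i ^ 2 = c}) =
      Fintype.card (Fin n → F) :=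
    Fintype.card_congr (Equiv.sigmaFiberEquiv (fun x : Fin n → F => ∑ i, a i * x i ^ 2))
  rw [h, Fintype.card_fun, Fintype.card_fin]
  push_cast
  rfl

/-- the quadratic character -/
noncomputable abbrev χ (F : Type) [Field F] [Fintype F] : F → ℤ := fun x => quadraticChar F x

lemma card_sq (h2 : ringChar F ≠ 2) {a : F} (ha : a ≠ 0) (c : F) :
    (Fintype.card {y : F // a * y ^ 2 = c} : ℤ) = 1 + quadraticChar F (a * c) := by
  have h1 := quadraticChar_card_sqrts h2 (c / a)
  have h3 : quadraticChar F (a * c) = quadraticChar F (c / a) := by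
    have : a * c = c / a * a ^ 2 := by field_simp
    rw [this, map_mul, quadraticChar_sq_one' ha, mul_one]
  rw [h3, add_comm, ← h1]
  congr 1
  rw [← Fintype.card_coe]
  refine Fintype.card_congr (Equiv.subtypeEquivRight fun y => ?_)
  simp only [Set.mem_toFinset, Set.mem_ofPred_eq]
  rw [eq_div_iff ha, mul_comm]

lemma cnt_one (h2 : ringChar F ≠ 2) {a : Fin 1 → F} (ha : a 0 ≠ 0) (c : F) :
    cnt a c = 1 + quadraticChar F (a 0 * c) := by
  rw [← card_sq h2 ha]
  unfold cnt
  congr 1
  refine Fintype.card_congr ⟨fun x => ⟨x.1 0, ?_⟩, fun y => ⟨fun _ => y.1, ?_⟩, fun x => ?_,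
    fun y => rfl⟩
  · have := x.2
    simpa using this
  · have := y.2
    simpa using this
  · apply Subtype.ext
    funext i
    show x.1 0 = x.1 i
    rw [Subsingleton.elim i 0]

lemma sum_char (h2 : ringChar F ≠ 2) : ∑ x : F, quadraticChar F x = 0 :=
  quadraticChar_sum_zero h2

lemma sum_pair (h2 : ringChar F ≠ 2) (u : F) :
    ∑ s : F, quadraticChar F s * quadraticChar F (u - s) =
      quadraticChar F (-1) * ((if u = 0 then (Fintype.card F : ℤ) else 0) - 1) := by
  by_cases hu : u = 0
  · subst hu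
    rw [if_pos rfl]
    have h1 : ∀ s : F, quadraticChar F s * quadraticChar F (0 - s) =
        quadraticChar F (-1) * (if s = 0 then 0 else 1) := by
      intro s
      by_cases hs : s = 0
      · subst hs
        simp
      · rw [if_neg hs, zero_sub, show -s = (-1) * s by ring, map_mul]
        have : quadraticChar F s * quadraticChar F s = 1 := by
          rw [← map_mul, ← pow_two]
          exact quadraticChar_sq_one' hs
        linear_combination quadraticChar F (-1) * this
    rw [Finset.sum_congr rfl fun s _ => h1 s, ← Finset.mul_sum]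
    congr 1
    rw [Finset.sum_ite, Finset.sum_const_zero, zero_add, Finset.sum_const, nsmul_eq_mul, mul_one,
      Finset.filter_ne', Finset.card_erase_of_mem (Finset.mem_univ _), Finset.card_univ]
    have := Fintype.card_pos (α := F)
    push_cast [Nat.cast_sub (Nat.one_le_iff_ne_zero.2 this.ne')]
    ring
  · rw [if_neg hu, zero_sub]
    have hJ := jacobiSum_nontrivial_inv (χ := quadraticChar F) (quadraticChar_ne_one h2)
    have hinv : (quadraticChar F)⁻¹ = quadraticChar F := by
      exact (quadraticChar_isQuadratic F).inv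
    rw [hinv] at hJ
    unfold jacobiSum at hJ
    have h3 : ∑ s : F, quadraticChar F s * quadraticChar F (u - s) =
        ∑ x : F, quadraticChar F (u * x) * quadraticChar F (u - u * x) :=
      (Equiv.sum_comp (Equiv.mulLeft₀ u hu)
        (fun s => quadraticChar F s * quadraticChar F (u - s))).symm
    rw [h3]
    have h4 : ∀ x : F, quadraticChar F (u * x) * quadraticChar F (u - u * x) =
        quadraticChar F x * quadraticChar F (1 - x) := by
      intro x
      rw [show u - u * x = u * (1 - x) by ring, map_mul, map_mul]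
      have : quadraticChar F u * quadraticChar F u = 1 := by
        rw [← map_mul, ← pow_two]
        exact quadraticChar_sq_one' hu
      linear_combination quadraticChar F x * quadraticChar F (1 - x) * this
    rw [Finset.sum_congr rfl fun x _ => h4 x, hJ]
    ring

/-- two variables -/
lemma cnt_two (h2 : ringChar F ≠ 2) {a b : F} (ha : a ≠ 0) (hb : b ≠ 0) (u : F) :
    (Fintype.card {p : F × F // a * p.1 ^ 2 + b * p.2 ^ 2 = u} : ℤ) =
      (Fintype.card F : ℤ) + quadraticChar F (-(a * b)) *
        ((if u = 0 then (Fintype.card F : ℤ) else 0) - 1) := by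
  have h1 : (Fintype.card {p : F × F // a * p.1 ^ 2 + b * p.2 ^ 2 = u} : ℤ) =
      ∑ s : F, (1 + quadraticChar F (a * s)) * (1 + quadraticChar F (b * (u - s))) := by
    rw [Finset.sum_congr rfl fun s _ => by rw [← card_sq h2 ha, ← card_sq h2 hb]]
    have : ∀ s : F, (Fintype.card {y : F // a * y ^ 2 = s} : ℤ) *
        (Fintype.card {y : F // b * y ^ 2 = u - s} : ℤ) =
        (Fintype.card ({y : F // a * y ^ 2 = s} × {y : F // b * y ^ 2 = u - s}) : ℤ) := by
      intro s
      rw [Fintype.card_prod]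
      push_cast
      rfl
    rw [Finset.sum_congr rfl fun s _ => this s, ← Nat.cast_sum, ← Fintype.card_sigma]
    congr 1
    refine Fintype.card_congr ⟨fun p => ⟨a * p.1.1 ^ 2, ⟨p.1.1, rfl⟩, ⟨p.1.2, ?_⟩⟩,
      fun t => ⟨(t.2.1.1, t.2.2.1), ?_⟩, fun p => rfl, fun t => ?_⟩
    · have := p.2
      linear_combination this
    · have h3 := t.2.1.2
      have h4 := t.2.2.2
      linear_combination h3 + h4
    · obtain ⟨s, ⟨y, hy⟩, ⟨z, hz⟩⟩ := t
      subst hy
      rfl
  rw [h1]
  have h5 : ∀ s : F, (1 + quadraticChar F (a * s)) * (1 + quadraticChar F (b * (u - s))) =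
      1 + quadraticChar F a * quadraticChar F s + quadraticChar F b * quadraticChar F (u - s) +
      quadraticChar F (a * b) * (quadraticChar F s * quadraticChar F (u - s)) := by
    intro s
    rw [map_mul, map_mul, map_mul]
    ring
  rw [Finset.sum_congr rfl fun s _ => h5 s, Finset.sum_add_distrib, Finset.sum_add_distrib,
    Finset.sum_add_distrib, ← Finset.mul_sum, ← Finset.mul_sum, ← Finset.mul_sum, sum_pair h2,
    sum_char h2]
  have h6 : ∑ s : F, quadraticChar F (u - s) = 0 := by
    rw [← sum_char h2]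
    exact Equiv.sum_comp (Equiv.subLeft u) (fun s => quadraticChar F s)
  rw [h6, Finset.sum_const, Finset.card_univ, show -(a * b) = (a * b) * (-1) by ring,
    map_mul _ (a * b) (-1)]
  rw [nsmul_eq_mul]
  ring

/-- two more variables -/
lemma cnt_add_two (h2 : ringChar F ≠ 2) {n : ℕ} {a : Fin (n + 2) → F} (h0 : a 0 ≠ 0)
    (h1 : a 1 ≠ 0) (c : F) :
    cnt a c = ((Fintype.card F : ℤ) - quadraticChar F (-(a 0 * a 1))) * (Fintype.card F : ℤ) ^ n +
      Fintype.card F * quadraticChar F (-(a 0 * a 1)) * cnt (fun i => a i.succ.succ) c := by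
  have e1 : cnt a c = ∑ p : F × F, cnt (fun i => a i.succ.succ) (c - (a 0 * p.1 ^ 2 + a 1 * p.2 ^ 2)) := by
    rw [cnt_succ, Fintype.sum_prod_type]
    refine Finset.sum_congr rfl fun y _ => ?_
    rw [cnt_succ]
    refine Finset.sum_congr rfl fun z _ => ?_
    congr 1
    show c - a 0 * y ^ 2 - a (Fin.succ 0) * z ^ 2 = _
    rw [show (Fin.succ 0 : Fin (n + 2)) = 1 from rfl]
    ring
  have e2 : cnt a c = ∑ u : F, (Fintype.card {p : F × F // a 0 * p.1 ^ 2 + a 1 * p.2 ^ 2 = u} : ℤ) *
      cnt (fun i => a i.succ.succ) (c - u) := by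
    rw [e1]
    rw [← Finset.sum_fiberwise (s := Finset.univ)
      (g := fun p : F × F => a 0 * p.1 ^ 2 + a 1 * p.2 ^ 2)]
    refine Finset.sum_congr rfl fun u _ => ?_
    rw [Finset.sum_congr rfl (g := fun _ => cnt (fun i => a i.succ.succ) (c - u)) (fun p hp => by
      rw [(Finset.mem_filter.1 hp).2]), Finset.sum_const, nsmul_eq_mul]
    congr 1
    rw [Fintype.card_subtype]
  rw [e2]
  simp only [cnt_two h2 h0 h1]
  have e3 : ∀ u : F, ((Fintype.card F : ℤ) + quadraticChar F (-(a 0 * a 1)) *
      ((if u = 0 then (Fintype.card F : ℤ) else 0) - 1)) * cnt (fun i => a i.succ.succ) (c - u) =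
      ((Fintype.card F : ℤ) - quadraticChar F (-(a 0 * a 1))) * cnt (fun i => a i.succ.succ) (c - u) +
      (if u = 0 then (Fintype.card F : ℤ) * quadraticChar F (-(a 0 * a 1)) *
        cnt (fun i => a i.succ.succ) c else 0) := by
    intro u
    by_cases hu : u = 0
    · subst hu
      rw [if_pos rfl, if_pos rfl, sub_zero]
      ring
    · rw [if_neg hu, if_neg hu]
      ring
  rw [Finset.sum_congr rfl fun u _ => e3 u, Finset.sum_add_distrib, ← Finset.mul_sum,
    Finset.sum_ite_eq' Finset.univ (0 : F), if_pos (Finset.mem_univ _)]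
  congr 1
  congr 1
  rw [← cnt_sum (fun i => a i.succ.succ)]
  exact Equiv.sum_comp (Equiv.subLeft c) (fun s => cnt (fun i => a i.succ.succ) s)

/-- an odd number of variables -/
theorem cnt_odd (h2 : ringChar F ≠ 2) (m : ℕ) (a : Fin (2 * m + 1) → F) (ha : ∀ i, a i ≠ 0)
    (c : F) : cnt a c = (Fintype.card F : ℤ) ^ (2 * m) +
      (Fintype.card F : ℤ) ^ m * quadraticChar F ((-1) ^ m * (∏ i, a i) * c) := by
  induction m generalizing c with
  | zero =>
    rw [cnt_one h2 (ha 0)]
    simp
  | succ m ih =>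
    have h3 := cnt_add_two (n := 2 * m + 1) (a := a) h2 (ha 0) (ha 1) c
    have h4 := ih (fun i => a i.succ.succ) (fun i => ha _) c
    have h5 : ∏ i, a i = a 0 * (a 1 * ∏ i : Fin (2 * m + 1), a i.succ.succ) :=
      (Fin.prod_univ_succ (n := 2 * m + 2) a).trans (congrArg (a 0 * ·)
        (Fin.prod_univ_succ (n := 2 * m + 1) (fun i => a i.succ)))
    have h6 : (-1 : F) ^ (m + 1) * (∏ i, a i) * c =
        (-(a 0 * a 1)) * ((-1) ^ m * (∏ i : Fin (2 * m + 1), a i.succ.succ) * c) := by
      rw [h5]
      ring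
    refine h3.trans ?_
    rw [h4, h6, map_mul _ (-(a 0 * a 1))]
    ring

/-- the fibre of the quadric bundle -/
theorem fibre (h2 : ringChar F ≠ 2) (m : ℕ) (a : Fin (2 * m + 1) → F) (ha : ∀ i, a i ≠ 0)
    (f : F) : (Fintype.card {p : (Fin (2 * m + 1) → F) × F // ∑ i, a i * p.1 i ^ 2 = f * p.2 ^ 2} : ℤ) =
      (Fintype.card F : ℤ) ^ (2 * m + 1) +
      (Fintype.card F - 1) * (Fintype.card F : ℤ) ^ m *
        quadraticChar F ((-1) ^ m * (∏ i, a i) * f) := by
  have e1 : (Fintype.card {p : (Fin (2 * m + 1) → F) × F //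
      ∑ i, a i * p.1 i ^ 2 = f * p.2 ^ 2} : ℤ) = ∑ z : F, cnt a (f * z ^ 2) := by
    unfold cnt
    rw [← Nat.cast_sum, ← Fintype.card_sigma]
    congr 1
    exact Fintype.card_congr ⟨fun p => ⟨p.1.2, p.1.1, p.2⟩, fun t => ⟨(t.2.1, t.1), t.2.2⟩,
      fun _ => rfl, fun _ => rfl⟩
  rw [e1, Finset.sum_congr rfl fun z _ => cnt_odd h2 m a ha (f * z ^ 2), Finset.sum_add_distrib,
    Finset.sum_const, Finset.card_univ, ← Finset.mul_sum, nsmul_eq_mul]
  have e2 : ∀ z : F, quadraticChar F ((-1) ^ m * (∏ i, a i) * (f * z ^ 2)) =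
      quadraticChar F ((-1) ^ m * (∏ i, a i) * f) * (if z = 0 then 0 else 1) := by
    intro z
    by_cases hz : z = 0
    · subst hz
      simp
    · rw [if_neg hz, ← mul_assoc, map_mul _ _ (z ^ 2), quadraticChar_sq_one' hz]
  rw [Finset.sum_congr rfl fun z _ => e2 z, ← Finset.mul_sum, Finset.sum_ite,
    Finset.sum_const_zero, zero_add, Finset.sum_const, nsmul_eq_mul, mul_one,
    Finset.filter_ne', Finset.card_erase_of_mem (Finset.mem_univ _), Finset.card_univ]
  have := Fintype.card_pos (α := F)
  push_cast [Nat.cast_sub (Nat.one_le_iff_ne_zero.2 this.ne')]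
  ring

end Pool.Agent.L7h1.QB
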