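import Pool.Agent.Y698.Lf
import Pool.Agent.Y696.Hss
import Pool.Agent.L7h1.QB.Count

/-!
# The `L`-functions of quadric bundles over the projective line
-/

set_option autoImplicit false
set_option linter.unusedSectionVars false
set_option linter.unusedVariables false
set_option linter.style.haveILetI false

open scoped Classical

namespace Pool.Agent.L7h1.QB

open Finset NumberField IsDedekindDomain IsDedekindDomain.HeightOneSpectrum
open Pool.Agent.W189.NF (aV eV aLoc eLoc redMap Ov finite_res card_res redMap_eq_zero)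
open Pool.Agent.H921R2.TatePole (nm two_le_nm)
open Pool.Agent.Y696 (HBd LSeries_hasProd')
open Pool.Agent.Y698 (AP min_count)

section count

/-- `(#F - 1) #X(F)`, `X` being the quadric bundle `∑ b j x j ^ 2 = f(t) z ^ 2` over the line; the fibre
at infinity is `∑ b j x j ^ 2 = 0` -/
noncomputable def cone (F : Type) [CommRing F] (m : ℕ) (b : Fin (2 * m + 1) → F) (f : F → F) : ℕ :=
  Nat.card {p : F × (Fin (2 * m + 1) → F) × F // p.2 ≠ 0 ∧
    ∑ j, b j * p.2.1 j ^ 2 = f p.1 * p.2.2 ^ 2} +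
  Nat.card {p : (Fin (2 * m + 1) → F) × F // p ≠ 0 ∧ ∑ j, b j * p.1 j ^ 2 = 0}

/-- the points of the curve `y ^ 2 = f(t)` -/
noncomputable def aff (F : Type) [CommRing F] (f : F → F) : ℕ :=
  Nat.card {p : F × F // p.2 ^ 2 = f p.1}

variable {F : Type} [Field F] [Fintype F]

lemma fibre_ne (h2 : ringChar F ≠ 2) (m : ℕ) (a : Fin (2 * m + 1) → F) (ha : ∀ i, a i ≠ 0)
    (f : F) : (Nat.card {p : (Fin (2 * m + 1) → F) × F // p ≠ 0 ∧
      ∑ i, a i * p.1 i ^ 2 = f * p.2 ^ 2} : ℤ) =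
      (Fintype.card F : ℤ) ^ (2 * m + 1) - 1 +
      (Fintype.card F - 1) * (Fintype.card F : ℤ) ^ m *
        quadraticChar F ((-1) ^ m * (∏ i, a i) * f) := by
  have h1 := fibre h2 m a ha f
  have h3 : Nat.card {p : (Fin (2 * m + 1) → F) × F // ∑ i, a i * p.1 i ^ 2 = f * p.2 ^ 2} =
      Nat.card {p : (Fin (2 * m + 1) → F) × F // p ≠ 0 ∧
        ∑ i, a i * p.1 i ^ 2 = f * p.2 ^ 2} + 1 := by
    have e1 : ({p : (Fin (2 * m + 1) → F) × F | ∑ i, a i * p.1 i ^ 2 = f * p.2 ^ 2}) =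
        insert 0 {p : (Fin (2 * m + 1) → F) × F | p ≠ 0 ∧
          ∑ i, a i * p.1 i ^ 2 = f * p.2 ^ 2} := by
      ext p
      simp only [Set.mem_ofPred_eq, Set.mem_insert_iff]
      constructor
      · intro h
        by_cases hp : p = 0
        · exact Or.inl hp
        · exact Or.inr ⟨hp, h⟩
      · rintro (rfl | h)
        · simp
        · exact h.2
    have e2 := congrArg Set.ncard e1
    rw [Set.ncard_insert_of_notMem (by simp) (Set.toFinite _)] at e2
    exact e2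
  rw [← Nat.card_eq_fintype_card, h3] at h1
  push_cast at h1 ⊢
  linear_combination h1

/-- **The number of points of the quadric bundle.** -/
theorem cone_eq (h2 : ringChar F ≠ 2) (m : ℕ) (a : Fin (2 * m + 1) → F) (ha : ∀ i, a i ≠ 0)
    {c : F} (hc : (-1) ^ m * ∏ i, a i = c ^ 2) (f : F → F) :
    (cone F m a f : ℤ) = ((Fintype.card F : ℤ) + 1) * ((Fintype.card F : ℤ) ^ (2 * m + 1) - 1) +
      (Fintype.card F - 1) * (Fintype.card F : ℤ) ^ m * ((aff F f : ℤ) - Fintype.card F) := by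
  have hc0 : c ≠ 0 := by
    rintro rfl
    rw [zero_pow two_ne_zero] at hc
    rcases mul_eq_zero.1 hc with h | h
    · exact pow_ne_zero m (neg_ne_zero.2 one_ne_zero) h
    · obtain ⟨i, -, hi⟩ := Finset.prod_eq_zero_iff.1 h
      exact ha i hi
  have key : ∀ g : F, quadraticChar F ((-1) ^ m * (∏ i, a i) * g) = quadraticChar F g := by
    intro g
    rw [hc, map_mul, quadraticChar_sq_one' hc0, one_mul]
  have e1 : (Nat.card {p : F × (Fin (2 * m + 1) → F) × F // p.2 ≠ 0 ∧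
      ∑ j, a j * p.2.1 j ^ 2 = f p.1 * p.2.2 ^ 2} : ℤ) =
      ∑ t : F, (Nat.card {p : (Fin (2 * m + 1) → F) × F // p ≠ 0 ∧
        ∑ i, a i * p.1 i ^ 2 = f t * p.2 ^ 2} : ℤ) := by
    rw [← Nat.cast_sum]
    congr 1
    simp only [Nat.card_eq_fintype_card]
    rw [← Fintype.card_sigma]
    exact Fintype.card_congr ⟨fun p => ⟨p.1.1, p.1.2, p.2⟩, fun t => ⟨(t.1, t.2.1), t.2.2⟩,
      fun _ => rfl, fun _ => rfl⟩
  have e2 : (Nat.card {p : (Fin (2 * m + 1) → F) × F // p ≠ 0 ∧ ∑ j, a j * p.1 j ^ 2 = 0} : ℤ) =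
      (Fintype.card F : ℤ) ^ (2 * m + 1) - 1 := by
    have h3 := fibre_ne h2 m a ha 0
    rw [mul_zero, quadraticChar_zero, mul_zero, add_zero] at h3
    rw [← h3]
    congr 1
    refine Nat.card_congr (Equiv.subtypeEquivRight fun p => ?_)
    rw [zero_mul]
  have e3 : (aff F f : ℤ) = ∑ t : F, (1 + quadraticChar F (f t)) := by
    unfold aff
    have : ∀ t : F, (1 + quadraticChar F (f t)) = (Fintype.card {y : F // 1 * y ^ 2 = f t} : ℤ) :=
      fun t => by rw [card_sq h2 one_ne_zero, one_mul]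
    rw [Finset.sum_congr rfl fun t _ => this t, ← Nat.cast_sum, ← Fintype.card_sigma,
      Nat.card_eq_fintype_card]
    congr 1
    exact Fintype.card_congr ⟨fun p => ⟨p.1.1, p.1.2, by rw [one_mul]; exact p.2⟩,
      fun t => ⟨(t.1, t.2.1), by have := t.2.2; rwa [one_mul] at this⟩, fun _ => rfl, fun _ => rfl⟩
  unfold cone
  push_cast
  rw [e1, e2, e3, Finset.sum_congr rfl fun t _ => fibre_ne h2 m a ha (f t)]
  simp only [key]
  rw [Finset.sum_add_distrib, Finset.sum_add_distrib, ← Finset.mul_sum, Finset.sum_const,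
    Finset.sum_const, Finset.card_univ]
  simp only [nsmul_eq_mul]
  ring

end count

section places
variable {K : Type} [Field K] [NumberField K]

/-- the residue field -/
noncomputable def qe (v : HeightOneSpectrum (𝓞 K)) :
    (𝓞 K ⧸ v.asIdeal) ≃+* IsLocalRing.ResidueField (Ov v) := by
  have h : RingHom.ker (redMap v) = v.asIdeal := by
    ext x
    rw [RingHom.mem_ker, redMap_eq_zero]
  exact (Ideal.quotEquivOfEq h.symm).trans
    (RingHom.quotientKerEquivOfSurjective (Pool.Agent.W189.NF.redMap_surjective v))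

lemma qe_mk (v : HeightOneSpectrum (𝓞 K)) (x : 𝓞 K) :
    qe v (Ideal.Quotient.mk v.asIdeal x) = redMap v x := rfl

lemma isUnit_of_notMem {v : HeightOneSpectrum (𝓞 K)} {x : 𝓞 K} (hx : x ∉ v.asIdeal) :
    IsUnit (algebraMap (𝓞 K) (Ov v) x) := by
  rw [← IsLocalRing.residue_ne_zero_iff_isUnit]
  intro h
  exact hx ((redMap_eq_zero v x).1 h)

/-- **the local factor at the places of good reduction** -/
theorem good_aV (W : WeierstrassCurve (𝓞 K)) {v : HeightOneSpectrum (𝓞 K)}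
    (hΔ : W.Δ ∉ v.asIdeal) :
    aV (W.map (algebraMap (𝓞 K) K)) v = (nm v : ℤ) -
      (Nat.card (AP (W.map (Ideal.Quotient.mk v.asIdeal))) : ℤ) ∧
    eV (W.map (algebraMap (𝓞 K) K)) v = (nm v : ℤ) := by
  have hfin := finite_res v
  have h10 : Nat.card (IsLocalRing.ResidueField (Ov v)) = nm v := card_res v
  have hu : IsUnit (W.map (algebraMap (𝓞 K) (Ov v))).Δ := by
    rw [WeierstrassCurve.map_Δ]
    exact isUnit_of_notMem hΔ
  have hW : (W.map (algebraMap (𝓞 K) K)).baseChange (v.adicCompletion K) =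
      (W.map (algebraMap (𝓞 K) (Ov v))).map (algebraMap (Ov v) (v.adicCompletion K)) := by
    rw [WeierstrassCurve.baseChange, WeierstrassCurve.map_map, WeierstrassCurve.map_map]
    congr 1
  obtain ⟨c1, c2⟩ := min_count (v.adicCompletionIntegers K) hu hW
  have hAP : Nat.card (AP ((W.map (algebraMap (𝓞 K) (Ov v))).map
      (IsLocalRing.residue (Ov v)))) = Nat.card (AP (W.map (Ideal.Quotient.mk v.asIdeal))) := by
    have e1 : (W.map (algebraMap (𝓞 K) (Ov v))).map (IsLocalRing.residue (Ov v)) =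
        (W.map (Ideal.Quotient.mk v.asIdeal)).map (qe v : (𝓞 K ⧸ v.asIdeal) →+* _) := by
      rw [WeierstrassCurve.map_map, WeierstrassCurve.map_map]
      rfl
    rw [e1]
    unfold AP
    refine (Nat.card_congr (Equiv.subtypeEquiv
      (Equiv.prodCongr (qe v).toEquiv (qe v).toEquiv) fun x => ?_)).symm
    exact (WeierstrassCurve.Affine.map_equation
      ((W.map (Ideal.Quotient.mk v.asIdeal)).toAffine)
      (f := ((qe v : (𝓞 K ⧸ v.asIdeal) ≃+* IsLocalRing.ResidueField (Ov v)) :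
        (𝓞 K ⧸ v.asIdeal) →+* IsLocalRing.ResidueField (Ov v)))
      (qe v).injective x.1 x.2).symm
  constructor
  · unfold aV
    rw [c1, hAP, h10]
  · unfold eV
    rw [c2, h10]

lemma fin_mem {B : 𝓞 K} (hB : B ≠ 0) :
    {v : HeightOneSpectrum (𝓞 K) | B ∈ v.asIdeal}.Finite := by
  have h1 : (Ideal.span {B} : Ideal (𝓞 K)) ≠ 0 := by
    rw [Ne, Ideal.zero_eq_bot, Ideal.span_singleton_eq_bot]
    exact hB
  refine (Ideal.finite_factors h1).subset fun v hv => ?_
  exact (Ideal.dvd_span_singleton).2 hv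

lemma nm_ne (v : HeightOneSpectrum (𝓞 K)) : (nm v : ℂ) ≠ 0 := by
  have := two_le_nm v
  exact_mod_cast (by omega : nm v ≠ 0)

lemma norm_cpow (v : HeightOneSpectrum (𝓞 K)) (s : ℂ) :
    ‖(nm v : ℂ) ^ (-s)‖ = (nm v : ℝ) ^ (-s.re) := by
  have hq0 : (0 : ℝ) < (nm v : ℝ) := by
    have := two_le_nm v
    exact_mod_cast (by omega : 0 < nm v)
  have h2 : (nm v : ℂ) = ((nm v : ℝ) : ℂ) := by push_cast; rfl
  rw [h2, Complex.norm_cpow_eq_rpow_re_of_pos hq0, Complex.neg_re]

/-- the inverse of the local factor -/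
noncomputable def loc (E : WeierstrassCurve K) (v : HeightOneSpectrum (𝓞 K)) (X : ℂ) : ℂ :=
  1 - (aV E v : ℂ) * X + (eV E v : ℂ) * X ^ 2

lemma loc_ne {E : WeierstrassCurve K} {v : HeightOneSpectrum (𝓞 K)}
    (h : HBd (aV E v) (eV E v) (nm v)) {s : ℂ} (hs : 1 / 2 < s.re) :
    loc E v ((nm v : ℂ) ^ (-s)) ≠ 0 := by
  rcases h with ⟨h1, h2⟩ | ⟨x, h1, h2, h3⟩
  · unfold loc
    rw [h1, h2]
    simp
  · have hq1 : (1 : ℝ) < (nm v : ℝ) := by
      have := two_le_nm v
      exact_mod_cast (by omega : 1 < nm v)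
    have hq0 : (0 : ℝ) < (nm v : ℝ) := by linarith
    have hx : ‖x‖ = (nm v : ℝ) ^ (1 / 2 : ℝ) := by
      have h4 : ‖x‖ ^ 2 = (nm v : ℝ) := by
        rw [Complex.sq_norm]
        rw [Complex.mul_conj] at h3
        exact_mod_cast h3
      rw [← Real.sqrt_eq_rpow, ← h4, Real.sqrt_sq (norm_nonneg _)]
    have key : ∀ y : ℂ, ‖y‖ = (nm v : ℝ) ^ (1 / 2 : ℝ) → 1 - y * (nm v : ℂ) ^ (-s) ≠ 0 := by
      intro y hy h0
      have h1 : y * (nm v : ℂ) ^ (-s) = 1 := by linear_combination -h0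
      have h5 := congrArg norm h1
      rw [norm_mul, hy, norm_cpow, ← Real.rpow_add hq0, norm_one] at h5
      have h6 := Real.rpow_lt_one_of_one_lt_of_neg hq1 (z := 1 / 2 + -s.re) (by linarith)
      linarith
    have e : loc E v ((nm v : ℂ) ^ (-s)) = (1 - x * (nm v : ℂ) ^ (-s)) *
        (1 - (starRingEnd ℂ) x * (nm v : ℂ) ^ (-s)) := by
      unfold loc
      rw [h1, h2]
      ring
    rw [e]
    refine mul_ne_zero (key _ hx) (key _ ?_)
    rw [RCLike.norm_conj]
    exact hx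

/-- **The Euler product without finitely many factors, shifted.** -/
theorem euler {E : WeierstrassCurve K} (hE : ∀ v, HBd (aV E v) (eV E v) (nm v)) {Lf : ℂ → ℂ}
    (h1 : Differentiable ℂ Lf) (h2 : ∀ s : ℂ, 3 / 2 < s.re → Lf s = E.LSeries s)
    (h3 : Lf 1 ≠ 0) (m : ℕ) {B : 𝓞 K} (hB : B ≠ 0) :
    ∃ L : ℂ → ℂ, Differentiable ℂ L ∧ L (m + 1) ≠ 0 ∧ ∀ s : ℂ, m + 3 / 2 < s.re →
      HasProd (fun v : {v : HeightOneSpectrum (𝓞 K) // B ∉ v.asIdeal} =>
        (loc E v.1 ((nm v.1 : ℂ) ^ m * (nm v.1 : ℂ) ^ (-s)))⁻¹) (L s) := by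
  have hfin := fin_mem (K := K) hB
  have hshift : ∀ (v : HeightOneSpectrum (𝓞 K)) (s : ℂ),
      (nm v : ℂ) ^ (-(s - m)) = (nm v : ℂ) ^ m * (nm v : ℂ) ^ (-s) := by
    intro v s
    rw [show -(s - (m : ℂ)) = (m : ℂ) + -s by ring, Complex.cpow_add _ _ (nm_ne v),
      Complex.cpow_natCast]
  have hsub : Differentiable ℂ (fun s : ℂ => s - (m : ℂ)) := differentiable_id.sub_const _
  refine ⟨fun s => Lf (s - m) * ∏ v ∈ hfin.toFinset, loc E v ((nm v : ℂ) ^ (-(s - m))), ?_, ?_,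
    fun s hs => ?_⟩
  · refine (h1.comp hsub).mul (Differentiable.fun_finsetProd fun v _ => ?_)
    have h4 : Differentiable ℂ (fun s : ℂ => (nm v : ℂ) ^ (-(s - m))) := by
      intro s
      exact DifferentiableAt.const_cpow (by fun_prop) (Or.inl (nm_ne v))
    unfold loc
    exact ((differentiable_const _).sub ((differentiable_const _).mul h4)).add
      ((differentiable_const _).mul (h4.pow 2))
  · show Lf ((m : ℂ) + 1 - m) * _ ≠ 0
    have e1 : (m : ℂ) + 1 - m = 1 := by ring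
    rw [e1]
    exact mul_ne_zero h3 (Finset.prod_ne_zero_iff.2 fun v _ => loc_ne (hE v) (by norm_num))
  · have hre : 3 / 2 < (s - (m : ℂ)).re := by
      rw [Complex.sub_re, Complex.natCast_re]
      linarith
    obtain ⟨-, h4⟩ := LSeries_hasProd' E hE hre
    have h5 : HasProd (fun v : HeightOneSpectrum (𝓞 K) =>
        (loc E v ((nm v : ℂ) ^ (-(s - m))))⁻¹) (Lf (s - m)) := by
      rw [h2 _ hre]
      exact h4
    have h6 : HasProd (fun v : HeightOneSpectrum (𝓞 K) => if B ∈ v.asIdeal then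
        loc E v ((nm v : ℂ) ^ (-(s - m))) else 1)
        (∏ v ∈ hfin.toFinset, if B ∈ v.asIdeal then loc E v ((nm v : ℂ) ^ (-(s - m))) else 1) := by
      refine hasProd_prod_of_ne_finset_one fun v hv => ?_
      rw [if_neg]
      intro h
      exact hv (hfin.mem_toFinset.2 h)
    have h7 : (∏ v ∈ hfin.toFinset, if B ∈ v.asIdeal then loc E v ((nm v : ℂ) ^ (-(s - m))) else 1) =
        ∏ v ∈ hfin.toFinset, loc E v ((nm v : ℂ) ^ (-(s - m))) :=
      Finset.prod_congr rfl fun p hp => if_pos (hfin.mem_toFinset.1 hp)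
    rw [h7] at h6
    have h8 : HasProd (fun v : {v : HeightOneSpectrum (𝓞 K) | B ∉ v.asIdeal} =>
        (loc E v.1 ((nm v.1 : ℂ) ^ (-(s - m))))⁻¹)
        (Lf (s - m) * ∏ v ∈ hfin.toFinset, loc E v ((nm v : ℂ) ^ (-(s - m)))) := by
      rw [← Function.comp_def (f := fun v : HeightOneSpectrum (𝓞 K) =>
        (loc E v ((nm v : ℂ) ^ (-(s - m))))⁻¹), hasProd_subtype_iff_mulIndicator]
      refine (h5.mul h6).congr_fun fun v => ?_
      by_cases hv : B ∈ v.asIdeal
      · rw [if_pos hv, Set.mulIndicator_of_notMem (by simpa using hv)]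
        exact (inv_mul_cancel₀ (loc_ne (hE v) (by linarith))).symm
      · rw [if_neg hv, Set.mulIndicator_of_mem (by simpa using hv), mul_one]
    exact h8.congr_fun fun v => by rw [← hshift]

end places

end Pool.Agent.L7h1.QB
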