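import Pool.Agent.L7h1.QB.Lf

/-!
# The `L`-functions of quadric bundles over the projective line: the general statement
-/

set_option autoImplicit false
set_option linter.unusedSectionVars false
set_option linter.unusedVariables false
set_option linter.style.haveILetI false

open scoped Classical

namespace Pool.Agent.L7h1.QB

open Finset NumberField IsDedekindDomain IsDedekindDomain.HeightOneSpectrum
open Pool.Agent.W189.NF (aV eV aLoc eLoc redMap Ov finite_res card_res redMap_eq_zero)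
open Pool.Agent.H921R2.TatePole (nm two_le_nm)
open Pool.Agent.Y696 (HBd LSeries_hasProd')
open Pool.Agent.Y698 (AP min_count)

section places
variable {K : Type} [Field K] [NumberField K]

/-- the cubic polynomial -/
def cub {R : Type} [CommRing R] (W : WeierstrassCurve R) (t : R) : R :=
  t ^ 3 + W.a₂ * t ^ 2 + W.a₄ * t + W.a₆

lemma AP_eq {R : Type} [CommRing R] (W : WeierstrassCurve R) (h1 : W.a₁ = 0) (h3 : W.a₃ = 0) :
    Nat.card (AP W) = aff R (cub W) := by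
  unfold AP aff
  refine Nat.card_congr (Equiv.subtypeEquivRight fun p => ?_)
  rw [WeierstrassCurve.Affine.equation_iff, h1, h3]
  unfold cub
  simp

/-- the eigenvalues at a place -/
theorem exists_alpha {W : WeierstrassCurve (𝓞 K)} (h1 : W.a₁ = 0) (h3 : W.a₃ = 0)
    {v : HeightOneSpectrum (𝓞 K)}
    (hE : HBd (aV (W.map (algebraMap (𝓞 K) K)) v) (eV (W.map (algebraMap (𝓞 K) K)) v) (nm v))
    (h2 : (2 : 𝓞 K) ∉ v.asIdeal) (hΔ : W.Δ ∉ v.asIdeal) (m : ℕ) {a : Fin (2 * m + 1) → 𝓞 K}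
    (ha : ∀ i, a i ∉ v.asIdeal) {c : 𝓞 K} (hc : (-1) ^ m * ∏ i, a i = c ^ 2) :
    ∃ α : ℂ, ‖α‖ ^ 2 = (nm v : ℝ) ^ (2 * m + 1) ∧
      (cone (𝓞 K ⧸ v.asIdeal) m (fun i => Ideal.Quotient.mk v.asIdeal (a i))
        (cub (W.map (Ideal.Quotient.mk v.asIdeal))) : ℂ) =
        ((nm v : ℂ) - 1) * ((1 + nm v) * ∑ l ∈ range (2 * m + 1), (nm v : ℂ) ^ l -
          (α + (starRingEnd ℂ) α)) ∧
      ∀ X : ℂ, loc (W.map (algebraMap (𝓞 K) K)) v ((nm v : ℂ) ^ m * X) =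
        (1 - α * X) * (1 - (starRingEnd ℂ) α * X) := by
  have hm : v.asIdeal.IsMaximal := v.isMaximal
  letI : Field (𝓞 K ⧸ v.asIdeal) := Ideal.Quotient.field v.asIdeal
  have hfin0 := finite_res v
  have hfin : Finite (𝓞 K ⧸ v.asIdeal) := Finite.of_equiv _ (qe v).toEquiv.symm
  letI : Fintype (𝓞 K ⧸ v.asIdeal) := Fintype.ofFinite _
  have hcard : Fintype.card (𝓞 K ⧸ v.asIdeal) = nm v := by
    rw [← Nat.card_eq_fintype_card, Nat.card_congr (qe v).toEquiv]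
    exact card_res v
  have hne : ∀ x : 𝓞 K, x ∉ v.asIdeal → Ideal.Quotient.mk v.asIdeal x ≠ 0 := fun x hx => by
    rwa [Ne, Ideal.Quotient.eq_zero_iff_mem]
  have hchar : ringChar (𝓞 K ⧸ v.asIdeal) ≠ 2 := by
    intro h
    apply hne 2 h2
    rw [map_ofNat]
    have h5 : ((2 : ℕ) : 𝓞 K ⧸ v.asIdeal) = 0 := by
      rw [← h]
      exact ringChar.Nat.cast_ringChar
    exact_mod_cast h5
  obtain ⟨l1, l2⟩ := good_aV W hΔ
  have hq : (nm v : ℤ) ≠ 0 := by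
    have := two_le_nm v
    exact_mod_cast (by omega : nm v ≠ 0)
  rcases hE with ⟨-, h5⟩ | ⟨x, x1, x2, x3⟩
  · exact absurd (l2.symm.trans h5) hq
  · have hA : Nat.card (AP (W.map (Ideal.Quotient.mk v.asIdeal))) =
        aff (𝓞 K ⧸ v.asIdeal) (cub (W.map (Ideal.Quotient.mk v.asIdeal))) := by
      refine AP_eq _ ?_ ?_
      · rw [WeierstrassCurve.map_a₁, h1, map_zero]
      · rw [WeierstrassCurve.map_a₃, h3, map_zero]
    rw [hA] at l1
    have hcone := cone_eq hchar m (fun i => Ideal.Quotient.mk v.asIdeal (a i))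
      (fun i => hne _ (ha i)) (c := Ideal.Quotient.mk v.asIdeal c) (by
        rw [← map_prod, ← map_one (Ideal.Quotient.mk v.asIdeal), ← map_neg, ← map_pow, ← map_mul,
          hc, map_pow]) (cub (W.map (Ideal.Quotient.mk v.asIdeal)))
    rw [hcard] at hcone
    have hcone' : (cone (𝓞 K ⧸ v.asIdeal) m (fun i => Ideal.Quotient.mk v.asIdeal (a i))
        (cub (W.map (Ideal.Quotient.mk v.asIdeal))) : ℂ) =
        ((nm v : ℂ) + 1) * ((nm v : ℂ) ^ (2 * m + 1) - 1) +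
        ((nm v : ℂ) - 1) * (nm v : ℂ) ^ m *
          ((aff (𝓞 K ⧸ v.asIdeal) (cub (W.map (Ideal.Quotient.mk v.asIdeal))) : ℂ) - nm v) := by
      exact_mod_cast hcone
    have l1' : ((aV (W.map (algebraMap (𝓞 K) K)) v : ℤ) : ℂ) = (nm v : ℂ) -
        (aff (𝓞 K ⧸ v.asIdeal) (cub (W.map (Ideal.Quotient.mk v.asIdeal))) : ℂ) := by
      exact_mod_cast congrArg (Int.cast : ℤ → ℂ) l1
    refine ⟨(nm v : ℂ) ^ m * x, ?_, ?_, fun X => ?_⟩
    · have h6 : ‖x‖ ^ 2 = (nm v : ℝ) := by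
        rw [Complex.sq_norm]
        rw [Complex.mul_conj] at x3
        exact_mod_cast x3
      rw [norm_mul, mul_pow, h6, norm_pow, Complex.norm_natCast]
      ring
    · have hgeom : ((nm v : ℂ) - 1) * ∑ i ∈ Finset.range (2 * m + 1), (nm v : ℂ) ^ i =
          (nm v : ℂ) ^ (2 * m + 1) - 1 := by
        rw [mul_comm]
        exact geom_sum_mul _ _
      rw [hcone', map_mul, map_pow, Complex.conj_natCast]
      have h7 : (aff (𝓞 K ⧸ v.asIdeal) (cub (W.map (Ideal.Quotient.mk v.asIdeal))) : ℂ) - nm v =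
          -(x + (starRingEnd ℂ) x) := by
        rw [← x1, l1']
        ring
      rw [h7]
      linear_combination (-(1 + (nm v : ℂ))) * hgeom
    · unfold loc
      rw [x1, x2, map_mul, map_pow, Complex.conj_natCast]
      ring

/-- **The general statement.** -/
theorem bundle {W : WeierstrassCurve (𝓞 K)} (h1 : W.a₁ = 0) (h3 : W.a₃ = 0)
    (hE : ∀ v, HBd (aV (W.map (algebraMap (𝓞 K) K)) v) (eV (W.map (algebraMap (𝓞 K) K)) v) (nm v))
    {Lf : ℂ → ℂ} (d1 : Differentiable ℂ Lf)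
    (d2 : ∀ s : ℂ, 3 / 2 < s.re → Lf s = (W.map (algebraMap (𝓞 K) K)).LSeries s)
    (d3 : Lf 1 ≠ 0) (m : ℕ) {a : Fin (2 * m + 1) → 𝓞 K} {c : 𝓞 K}
    (hc : (-1) ^ m * ∏ i, a i = c ^ 2) {B : 𝓞 K} (hB : B ≠ 0)
    (b2 : ∀ v : HeightOneSpectrum (𝓞 K), B ∉ v.asIdeal → (2 : 𝓞 K) ∉ v.asIdeal)
    (b3 : ∀ v : HeightOneSpectrum (𝓞 K), B ∉ v.asIdeal → W.Δ ∉ v.asIdeal)
    (b4 : ∀ (v : HeightOneSpectrum (𝓞 K)) (i), B ∉ v.asIdeal → a i ∉ v.asIdeal) :
    ∃ L : ℂ → ℂ, Differentiable ℂ L ∧ L (m + 1) ≠ 0 ∧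
      ∃ α : HeightOneSpectrum (𝓞 K) → ℂ,
        (∀ v, B ∉ v.asIdeal → ‖α v‖ ^ 2 = (nm v : ℝ) ^ (2 * m + 1) ∧
          (cone (𝓞 K ⧸ v.asIdeal) m (fun i => Ideal.Quotient.mk v.asIdeal (a i))
            (cub (W.map (Ideal.Quotient.mk v.asIdeal))) : ℂ) =
            ((nm v : ℂ) - 1) * ((1 + nm v) * ∑ l ∈ range (2 * m + 1), (nm v : ℂ) ^ l -
              (α v + (starRingEnd ℂ) (α v)))) ∧
        ∀ s : ℂ, m + 3 / 2 < s.re →
          HasProd (fun v : {v : HeightOneSpectrum (𝓞 K) // B ∉ v.asIdeal} =>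
            ((1 - α v.1 * (nm v.1 : ℂ) ^ (-s)) *
              (1 - (starRingEnd ℂ) (α v.1) * (nm v.1 : ℂ) ^ (-s)))⁻¹) (L s) := by
  obtain ⟨L, e1, e2, e3⟩ := euler hE d1 d2 d3 m hB
  have hch : ∀ v : HeightOneSpectrum (𝓞 K), ∃ α : ℂ, B ∉ v.asIdeal →
      ‖α‖ ^ 2 = (nm v : ℝ) ^ (2 * m + 1) ∧
      (cone (𝓞 K ⧸ v.asIdeal) m (fun i => Ideal.Quotient.mk v.asIdeal (a i))
        (cub (W.map (Ideal.Quotient.mk v.asIdeal))) : ℂ) =
        ((nm v : ℂ) - 1) * ((1 + nm v) * ∑ l ∈ range (2 * m + 1), (nm v : ℂ) ^ l -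
          (α + (starRingEnd ℂ) α)) ∧
      ∀ X : ℂ, loc (W.map (algebraMap (𝓞 K) K)) v ((nm v : ℂ) ^ m * X) =
        (1 - α * X) * (1 - (starRingEnd ℂ) α * X) := by
    intro v
    by_cases h : B ∈ v.asIdeal
    · exact ⟨0, fun h' => absurd h h'⟩
    · obtain ⟨α, hα⟩ := exists_alpha h1 h3 (hE v) (b2 v h) (b3 v h) m (fun i => b4 v i h) hc
      exact ⟨α, fun _ => hα⟩
  choose α hα using hch
  refine ⟨L, e1, e2, α, fun v hv => ⟨(hα v hv).1, (hα v hv).2.1⟩, fun s hs => ?_⟩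
  refine (e3 s hs).congr_fun fun v => ?_
  rw [(hα v.1 v.2).2.2]

end places

end Pool.Agent.L7h1.QB
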